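import Pool.Agent.R228.GL.Main
import Pool.Agent.R228.GL.AbsF
import Pool.Agent.R228.GL.Close
import Pool.Agent.R228.GL.En
import Pool.Agent.R228.GL.J
import Pool.Agent.R228.GL.K1
import Pool.Agent.R228.GL.K2
import Pool.Agent.R228.GL.K3a
import Pool.Agent.R228.GL.K3
import Pool.Agent.R228.GL.K5
import Pool.Agent.R228.GL.K6
import Pool.Agent.R228.GL.K8
import Pool.Agent.R228.GL.K9
import Pool.Agent.R228.GL.Kc
import Pool.Agent.R228.GL.Lev
import Pool.Agent.R228.GL.Nrm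
import Pool.Agent.R228.GL.Plb
import Pool.Agent.R228.GL.RA
import Pool.Agent.R228.GL.Sg
import Pool.Agent.R228.GL.Tr
import Pool.Agent.R228.GL.Yb

/-!
# MP_b98ad5_an: finite-time blowup for large `γ` in complex Ginzburg-Landau equations

For every `u₀ ∈ C₀(ℝ^N) ∩ H¹(ℝ^N)`, `u₀ ≠ 0`, there is `γ₀ > 0` such that the solution of
`u_t = e^{iθ}[Δu + |u|^α u] + γu`, `u(0) = u₀`, has finite maximal existence time for every
`γ > γ₀`.
-/

namespace Pool.Agent.Results.MP_b98ad5_an.BlowupLargeGamma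

open MeasureTheory Filter Set
open Pool.Agent.R228.GL
open scoped ENNReal Topology ZeroAtInfty FourierTransform ContDiff SchwartzMap

/-- `F` is the Fourier transform of `f` in the sense of tempered distributions -/
def IsFT {N : ℕ} (f F : E N → ℂ) : Prop :=
  ∀ φ : SchwartzMap (E N) ℂ, ∫ ξ, F ξ * φ ξ = ∫ x, f x * 𝓕 (fun ξ => φ ξ) x

/-- `f ∈ H¹(ℝ^N)`: `f ∈ L²` and its Fourier transform `F` satisfies `F ∈ L²`, `|ξ| F(ξ) ∈ L²` -/
def InH1 {N : ℕ} (f : E N → ℂ) : Prop :=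
  MemLp f 2 ∧ ∃ F : E N → ℂ, MemLp F 2 ∧ IsFT f F ∧ Integrable (fun ξ => ‖ξ‖ ^ 2 * ‖F ξ‖ ^ 2)

lemma memH1_of {N : ℕ} {f : E N → ℂ} (h : InH1 f) : MemH1 f := by
  obtain ⟨h2, F, hF, hFT, hI⟩ := h
  refine ⟨h2, ?_⟩
  have hae : ((𝓕 (h2.toLp f) : Lp ℂ 2 (volume : Measure (E N))) : E N → ℂ) =ᵐ[volume] F := by
    apply ae_eq_of_integral_contDiff_smul_eq
    · exact (Lp.memLp _).locallyIntegrable (by norm_num)
    · exact hF.locallyIntegrable (by norm_num)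
    · intro g g_smooth g_cpt
      have hg₁ : HasCompactSupport (Complex.ofRealCLM ∘ g) := g_cpt.comp_left rfl
      have hg₂ : ContDiff ℝ ∞ (Complex.ofRealCLM ∘ g) := by fun_prop
      set gS : 𝓢(E N, ℂ) := hg₁.toSchwartzMap hg₂ with hgS
      have hgx : ∀ x, gS x = (g x : ℂ) := fun x => rfl
      have e1 : ∫ x, g x • ((𝓕 (h2.toLp f) : Lp ℂ 2 (volume : Measure (E N))) : E N → ℂ) x =
          ((𝓕 (h2.toLp f) : Lp ℂ 2 (volume : Measure (E N))) : 𝓢'(E N, ℂ)) gS := by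
        rw [Lp.toTemperedDistribution_apply]
        simp [hgx]
      rw [e1, ← Lp.fourier_toTemperedDistribution_eq, TemperedDistribution.fourier_apply,
        Lp.toTemperedDistribution_apply]
      have e2 : ∫ x, (𝓕 gS) x • (h2.toLp f : E N → ℂ) x = ∫ x, f x * 𝓕 (fun ξ => gS ξ) x := by
        apply integral_congr_ae
        filter_upwards [h2.coeFn_toLp] with x hx
        rw [hx, SchwartzMap.fourier_coe, smul_eq_mul, mul_comm]
      rw [e2, ← hFT gS]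
      apply integral_congr_ae
      exact Eventually.of_forall fun x => by simp [hgx, mul_comm]
  refine hI.congr ?_
  filter_upwards [hae] with ξ hξ
  rw [hξ]

/-- Q1 (yes): for all `N`, `α > 0`, `0 ≤ θ < π/2` and every nonzero `u₀ ∈ C₀(ℝ^N) ∩ H¹(ℝ^N)`
there is `γ₀ > 0` such that `T_max(u₀, γ) < ∞` for every `γ > γ₀`. -/
theorem result {N : ℕ} (α θ : ℝ) (hα : 0 < α) (h0 : 0 ≤ θ) (h1 : θ < Real.pi / 2)
    (u0 : C₀(E N, ℂ)) (hu0 : u0 ≠ 0) (hH1 : InH1 (fun x => u0 x)) :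
    ∃ γ0 : ℝ, 0 < γ0 ∧ ∀ γ : ℝ, γ0 < γ → Tmax θ α γ u0 < ⊤ := by
  have hE : S_E.{0} := energy stj
  have hN : S_N.{0} := nrm
  have hC : S_C.{0} := lev hE hN
  have hK3 : S_K3 := k3 (k3a k1)
  obtain ⟨γ0, hγ0, hmain⟩ := main_of hE hN (absF hE hN hC ra) close yb tr sg hK3 kc
    (k5 k1 k2) k6 (k8 k1) k9 plb α θ hα h0 h1 u0 hu0 (memH1_of hH1)
  refine ⟨γ0, hγ0, fun γ hγ => ?_⟩
  obtain ⟨B, hB⟩ := hmain γ hγ
  refine lt_of_le_of_lt (?_ : Tmax θ α γ u0 ≤ ENNReal.ofReal B) ENNReal.ofReal_lt_top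
  unfold Tmax
  refine iSup_le fun T => ENNReal.ofReal_le_ofReal (hB T.1 T.2.1 T.2.2)

end Pool.Agent.Results.MP_b98ad5_an.BlowupLargeGamma
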